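import Pool.Agent.Lib.MP_a17342_co.RT.MainSix

/-!
# Straight-line RAC drawings of subcubic graphs: the structure of a smallest counterexample

If some subcubic graph has no straight-line drawing in which all crossings are at right angles, then some graph with
at most as many vertices has none which is connected, cubic and without triangles, in which the neighbours outside `C` of
two vertices of a cycle `C` of length four are different, not adjacent and not on a common cycle of length four, and which
has no plane part with at most three outgoing edges. Definitions: `IsSquare4`: `Pool/Agent/Lib/MP_a17342_co/RT/Square.lean`;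
`PlanePart`: `Pool/Agent/Lib/MP_a17342_co/RT/Pole.lean`.
-/

set_option autoImplicit false

namespace Pool.Agent.Results.MP_a17342_co.SmallestCounterexample

theorem result (V : Type) [Fintype V] (G : SimpleGraph V) (hdeg : ∀ v, (G.neighborSet v).ncard ≤ 3)
    (hG : ¬ ∃ p : V → ℝ × ℝ, Function.Injective p ∧
      (∀ a b c : V, G.Adj a b → c ≠ a → c ≠ b → p c ∉ segment ℝ (p a) (p b)) ∧
      (∀ a b c d : V, G.Adj a b → G.Adj c d → a ≠ c → a ≠ d → b ≠ c → b ≠ d →
        (segment ℝ (p a) (p b) ∩ segment ℝ (p c) (p d)).Nonempty →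
        ((p b).1 - (p a).1) * ((p d).1 - (p c).1) +
          ((p b).2 - (p a).2) * ((p d).2 - (p c).2) = 0)) :
    ∃ (V' : Type) (_ : Fintype V') (G' : SimpleGraph V'),
      Fintype.card V' ≤ Fintype.card V ∧ G'.Connected ∧ (∀ v, (G'.neighborSet v).ncard = 3) ∧
      G'.CliqueFree 3 ∧
      (∀ a b c d u v q r, MP_a17342_co.RT.IsSquare4 G' a b c d → u ∈ ({a, b, c, d} : Set V') →
        v ∈ ({a, b, c, d} : Set V') → u ≠ v → G'.Adj u q → G'.Adj v r →
        q ∉ ({a, b, c, d} : Set V') → r ∉ ({a, b, c, d} : Set V') →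
        q ≠ r ∧ ¬ G'.Adj q r ∧ ∀ a' b' c' d', MP_a17342_co.RT.IsSquare4 G' a' b' c' d' →
          q ∈ ({a', b', c', d'} : Set V') → r ∉ ({a', b', c', d'} : Set V')) ∧
      (∀ W x₁ x₂ x₃ q, ¬ MP_a17342_co.RT.PlanePart G' W x₁ x₂ x₃ q) ∧
      ¬ ∃ p : V' → ℝ × ℝ, Function.Injective p ∧
        (∀ a b c : V', G'.Adj a b → c ≠ a → c ≠ b → p c ∉ segment ℝ (p a) (p b)) ∧
        (∀ a b c d : V', G'.Adj a b → G'.Adj c d → a ≠ c → a ≠ d → b ≠ c → b ≠ d →
          (segment ℝ (p a) (p b) ∩ segment ℝ (p c) (p d)).Nonempty →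
          ((p b).1 - (p a).1) * ((p d).1 - (p c).1) +
            ((p b).2 - (p a).2) * ((p d).2 - (p c).2) = 0) := by
  by_contra hcon
  apply hG
  refine MP_a17342_co.RT.main_six (Fintype.card V) ?_ V G (le_of_eq Nat.card_eq_fintype_card) hdeg
  intro V' _ G' hle hc h3 hf hcn hpp
  have := Fintype.ofFinite V'
  by_contra hno
  exact hcon ⟨V', this, G', by rw [← Nat.card_eq_fintype_card]; exact hle, hc, h3, hf, hcn, hpp, hno⟩

end Pool.Agent.Results.MP_a17342_co.SmallestCounterexample
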