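import Pool.Agent.Lib.MP_a17342_co.Main

/-!
# Straight-line RAC drawings of cubic graphs having a 2-factor with two odd cycles

Every connected cubic graph `G` with a perfect matching `M` such that exactly two of the cycles of
the 2-factor `G - M` have odd length has a straight-line drawing in which all crossings are at
right angles.
-/

set_option autoImplicit false

namespace Pool.Agent.Results.MP_a17342_co.TwoOddCycles

theorem result (V : Type) [Fintype V] (G : SimpleGraph V) (hG : G.Connected)
    (hdeg : ∀ v, (G.neighborSet v).ncard = 3) (M : G.Subgraph) (hM : M.IsPerfectMatching)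
    (hodd : {c : (G \ M.spanningCoe).ConnectedComponent | Odd c.supp.ncard}.ncard = 2) :
    ∃ p : V → ℝ × ℝ, Function.Injective p ∧
      (∀ a b c : V, G.Adj a b → c ≠ a → c ≠ b → p c ∉ segment ℝ (p a) (p b)) ∧
      (∀ a b c d : V, G.Adj a b → G.Adj c d → a ≠ c → a ≠ d → b ≠ c → b ≠ d →
        (segment ℝ (p a) (p b) ∩ segment ℝ (p c) (p d)).Nonempty →
        ((p b).1 - (p a).1) * ((p d).1 - (p c).1) +
          ((p b).2 - (p a).2) * ((p d).2 - (p c).2) = 0) :=
  Pool.Agent.Lib.MP_a17342_co.main G hG hdeg M hM hodd

end Pool.Agent.Results.MP_a17342_co.TwoOddCycles
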